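import Mathlib
import Pool.Agent.Helper11_PGL.StmtB

/-!
# DESC: descent of a formal family to a finitely generated domain
-/

open PGH

universe u

namespace PGL.H47

section

variable {k L R : Type u} [Field k] [Field L] [Algebra k L] [CommRing R] [Algebra k R]

/-- recursive division of power series -/
theorem coeff_mem_of_mul {O : Subalgebra k L} {f g h : PowerSeries L} (hfg : f * g = h) {m : ℕ}
    (hm : ∀ i < m, PowerSeries.coeff i f = 0) (hinv : (PowerSeries.coeff m f)⁻¹ ∈ O)
    (hne : PowerSeries.coeff m f ≠ 0)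
    (hf : ∀ i, PowerSeries.coeff i f ∈ O) (hh : ∀ i, PowerSeries.coeff i h ∈ O) (j : ℕ) :
    PowerSeries.coeff j g ∈ O := by
  induction j using Nat.strong_induction_on with
  | _ j ih =>
    have h1 : PowerSeries.coeff (m + j) h =
        ∑ p ∈ Finset.HasAntidiagonal.antidiagonal (m + j),
          PowerSeries.coeff p.1 f * PowerSeries.coeff p.2 g := by
      rw [← hfg, PowerSeries.coeff_mul]
    have hmem : (m, j) ∈ Finset.HasAntidiagonal.antidiagonal (m + j) := by
      rw [Finset.HasAntidiagonal.mem_antidiagonal]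
    rw [← Finset.add_sum_erase _ _ hmem] at h1
    have h2 : ∑ p ∈ (Finset.HasAntidiagonal.antidiagonal (m + j)).erase (m, j),
          PowerSeries.coeff p.1 f * PowerSeries.coeff p.2 g ∈ O := by
      refine O.sum_mem fun p hp => ?_
      rw [Finset.mem_erase, Finset.HasAntidiagonal.mem_antidiagonal] at hp
      rcases lt_trichotomy p.1 m with hlt | heq | hgt
      · rw [hm _ hlt, zero_mul]; exact O.zero_mem
      · exfalso
        apply hp.1
        ext
        · exact heq
        · change p.2 = j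
          omega
      · exact O.mul_mem (hf _) (ih _ (by omega))
    have h3 : PowerSeries.coeff m f * PowerSeries.coeff j g ∈ O := by
      have : PowerSeries.coeff m f * PowerSeries.coeff j g = PowerSeries.coeff (m + j) h -
          ∑ p ∈ (Finset.HasAntidiagonal.antidiagonal (m + j)).erase (m, j),
          PowerSeries.coeff p.1 f * PowerSeries.coeff p.2 g := by
        rw [h1]; ring
      rw [this]
      exact O.sub_mem (hh _) h2
    have h4 : PowerSeries.coeff j g =
        (PowerSeries.coeff m f)⁻¹ * (PowerSeries.coeff m f * PowerSeries.coeff j g) := by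
      rw [← mul_assoc, inv_mul_cancel₀ hne, one_mul]
    rw [h4]
    exact O.mul_mem hinv h3

theorem map_val_inj (O : Subalgebra k L) :
    Function.Injective (PowerSeries.map (O.val : O →+* L)) := by
  intro a b hab
  ext j
  have := congrArg (PowerSeries.coeff j) hab
  rw [PowerSeries.coeff_map, PowerSeries.coeff_map] at this
  exact Subtype.val_injective this ▸ rfl

theorem comb_mem {O : Subalgebra k L} {n : ℕ} {β : Fin n → L} (hβ : ∀ i, β i ∈ O)
    (w : Fin n → PowerSeries k) (j : ℕ) :
    PowerSeries.coeff j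
      (∑ i, PowerSeries.C (β i) * PowerSeries.map (algebraMap k L) (w i)) ∈ O := by
  rw [map_sum]
  refine O.sum_mem fun i _ => ?_
  rw [PowerSeries.coeff_C_mul, PowerSeries.coeff_map]
  exact O.mul_mem (hβ i) (O.algebraMap_mem _)

theorem map_comb (O : Subalgebra k L) {n : ℕ} (β : Fin n → O) (w : Fin n → PowerSeries k) :
    PowerSeries.map (O.val : O →+* L)
      (∑ i, PowerSeries.C (β i) * PowerSeries.map (algebraMap k O) (w i)) =
      ∑ i, PowerSeries.C (β i : L) * PowerSeries.map (algebraMap k L) (w i) := by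
  rw [map_sum]
  refine Finset.sum_congr rfl fun i _ => ?_
  rw [map_mul]
  rw [PowerSeries.map_C]
  rfl

end

open Classical in
theorem desc : DescStmt.{u} := by
  intro k L R _ _ _ _ _ _ _ A₀ F₁ x₀ Ψ hfin hgen hΨ
  -- choose the data
  have hdat : ∀ a : A₀, ∃ (n : ℕ) (α β : Fin n → L) (w : Fin n → PowerSeries k) (m : ℕ),
      (∀ i, IsAlgebraic (Polynomial k) (w i)) ∧
      (∀ i < m, PowerSeries.coeff i
        (∑ i, PowerSeries.C (β i) * PowerSeries.map (algebraMap k L) (w i)) = 0) ∧
      PowerSeries.coeff m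
        (∑ i, PowerSeries.C (β i) * PowerSeries.map (algebraMap k L) (w i)) ≠ 0 ∧
      (∑ i, PowerSeries.C (β i) * PowerSeries.map (algebraMap k L) (w i)) * Ψ a =
        ∑ i, PowerSeries.C (α i) * PowerSeries.map (algebraMap k L) (w i) := by
    intro a
    obtain ⟨n, α, β, w, hw, hne, heq⟩ := hΨ.rat a a.2
    have hex : ∃ m, PowerSeries.coeff m
        (∑ i, PowerSeries.C (β i) * PowerSeries.map (algebraMap k L) (w i)) ≠ 0 :=
      PowerSeries.exists_coeff_ne_zero_iff_ne_zero.2 hne
    refine ⟨n, α, β, w, Nat.find hex, hw, fun i hi => ?_, Nat.find_spec hex, heq⟩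
    have := Nat.find_min hex hi
    rwa [not_not] at this
  choose n α β w m hw hm0 hm1 heq using hdat
  have : Finite A₀ := hfin
  have : Fintype A₀ := Fintype.ofFinite _
  let S : Set L := (⋃ a : A₀, Set.range (α a)) ∪ (⋃ a : A₀, Set.range (β a)) ∪
    Set.range (fun a : A₀ => (PowerSeries.coeff (m a)
        (∑ i, PowerSeries.C (β a i) * PowerSeries.map (algebraMap k L) (w a i)))⁻¹)
  have hSfin : S.Finite :=
    ((Set.finite_iUnion fun a => Set.finite_range _).union
      (Set.finite_iUnion fun a => Set.finite_range _)).union (Set.finite_range _)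
  let O : Subalgebra k L := Algebra.adjoin k S
  have hα : ∀ (a : A₀) i, α a i ∈ O := fun a i =>
    Algebra.subset_adjoin (Or.inl (Or.inl (Set.mem_iUnion.2 ⟨a, i, rfl⟩)))
  have hβ : ∀ (a : A₀) i, β a i ∈ O := fun a i =>
    Algebra.subset_adjoin (Or.inl (Or.inr (Set.mem_iUnion.2 ⟨a, i, rfl⟩)))
  have hinv : ∀ a : A₀, (PowerSeries.coeff (m a)
        (∑ i, PowerSeries.C (β a i) * PowerSeries.map (algebraMap k L) (w a i)))⁻¹ ∈ O :=
    fun a => Algebra.subset_adjoin (Or.inr ⟨a, rfl⟩)
  have hA : ∀ a ∈ A₀, ∀ j, PowerSeries.coeff j (Ψ a) ∈ O := by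
    intro a ha j
    exact coeff_mem_of_mul (heq ⟨a, ha⟩) (hm0 _) (hinv _) (hm1 _) (comb_mem (hβ _) _)
      (comb_mem (hα _) _) j
  obtain ⟨d, hd, d', hdd', htop⟩ := hgen
  have hclos : ∀ T : Set R, (∀ a ∈ T, ∀ j, PowerSeries.coeff j (Ψ a) ∈ O) →
      ∀ r ∈ Algebra.adjoin k T, ∀ j, PowerSeries.coeff j (Ψ r) ∈ O := by
    intro T hT r hr
    induction hr using Algebra.adjoin_induction with
    | mem x hx => exact hT x hx
    | algebraMap c =>
      intro j
      rw [AlgHom.commutes, PowerSeries.algebraMap_apply, PowerSeries.coeff_C]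
      split_ifs
      · exact O.algebraMap_mem _
      · exact O.zero_mem
    | add x y _ _ hx hy => intro j; rw [map_add, map_add]; exact O.add_mem (hx j) (hy j)
    | mul x y _ _ hx hy =>
      intro j
      rw [map_mul, PowerSeries.coeff_mul]
      exact O.sum_mem fun p _ => O.mul_mem (hx _) (hy _)
  have hd1 : ∀ j, PowerSeries.coeff j (Ψ d) ∈ O := hclos A₀ hA d hd
  have hx0 : x₀ d * x₀ d' = 1 := by rw [← map_mul, hdd', map_one]
  have hx1 : x₀ d ≠ 0 := left_ne_zero_of_mul_eq_one hx0
  have hc0 : PowerSeries.coeff 0 (Ψ d) = algebraMap k L (x₀ d) := by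
    rw [PowerSeries.coeff_zero_eq_constantCoeff_apply]; exact hΨ.const d
  have hd2 : ∀ j, PowerSeries.coeff j (Ψ d') ∈ O := by
    intro j
    refine coeff_mem_of_mul (f := Ψ d) (h := 1) (m := 0) ?_ (fun i hi => absurd hi (Nat.not_lt_zero i))
      ?_ ?_ hd1 ?_ j
    · rw [← map_mul, hdd', map_one]
    · rw [hc0, ← map_inv₀]; exact O.algebraMap_mem _
    · rw [hc0, Ne, map_eq_zero]; exact hx1
    · intro i
      rw [PowerSeries.coeff_one]
      split_ifs
      · exact O.one_mem
      · exact O.zero_mem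
  have hall : ∀ r j, PowerSeries.coeff j (Ψ r) ∈ O := by
    intro r
    refine hclos (A₀ ∪ {d'}) ?_ r (by rw [htop]; trivial)
    rintro a (ha | ha)
    · exact hA a ha
    · rw [Set.mem_singleton_iff] at ha; rw [ha]; exact hd2
  have hinj := map_val_inj O
  let lift : R → PowerSeries O := fun r => PowerSeries.mk fun j => ⟨PowerSeries.coeff j (Ψ r), hall r j⟩
  have hlift : ∀ r, PowerSeries.map (O.val : O →+* L) (lift r) = Ψ r := by
    intro r
    ext j
    rw [PowerSeries.coeff_map, PowerSeries.coeff_mk]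
    rfl
  let Ψ' : R →ₐ[k] PowerSeries O :=
    { toFun := lift
      map_one' := by apply hinj; rw [hlift, map_one, map_one]
      map_zero' := by apply hinj; rw [hlift, map_zero, map_zero]
      map_add' := by intro a b; apply hinj; rw [hlift, map_add, map_add, hlift, hlift]
      map_mul' := by intro a b; apply hinj; rw [hlift, map_mul, map_mul, hlift, hlift]
      commutes' := by
        intro c
        apply hinj
        rw [hlift, AlgHom.commutes]
        ext j
        rw [PowerSeries.algebraMap_apply, PowerSeries.algebraMap_apply, PowerSeries.map_C]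
        rfl }
  have hΨ' : ∀ r, PowerSeries.map (O.val : O →+* L) (Ψ' r) = Ψ r := hlift
  have hft : Algebra.FiniteType k O := by
    rw [← Subalgebra.fg_iff_finiteType]
    exact Subalgebra.fg_def.2 ⟨S, hSfin, rfl⟩
  refine ⟨O, inferInstance, inferInstance, inferInstance, hft, Ψ', ?_, ?_, ?_, ?_⟩
  · intro r
    apply Subtype.val_injective
    have h1 := congrArg PowerSeries.constantCoeff (hΨ' r)
    rw [hΨ.const r] at h1
    have h2 := PowerSeries.coeff_map (O.val : O →+* L) 0 (Ψ' r)
    rw [PowerSeries.coeff_zero_eq_constantCoeff_apply, h1,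
      PowerSeries.coeff_zero_eq_constantCoeff_apply] at h2
    exact h2.symm
  · intro t ht
    obtain ⟨v, hv⟩ := hΨ.base t ht
    refine ⟨v, ?_⟩
    apply hinj
    rw [hΨ', hv]
    ext j
    rw [PowerSeries.coeff_map, PowerSeries.coeff_map, PowerSeries.coeff_map]
    rfl
  · intro a ha
    refine ⟨n ⟨a, ha⟩, fun i => ⟨α ⟨a, ha⟩ i, hα _ _⟩, fun i => ⟨β ⟨a, ha⟩ i, hβ _ _⟩, w ⟨a, ha⟩,
      hw _, ?_, ?_⟩
    · intro h0
      have h1 := congrArg (PowerSeries.map (O.val : O →+* L)) h0
      rw [map_comb, map_zero] at h1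
      exact hm1 ⟨a, ha⟩ (by rw [h1, map_zero])
    · apply hinj
      rw [map_mul, map_comb, map_comb, hΨ']
      exact heq ⟨a, ha⟩
  · obtain ⟨a, ha, j, hj⟩ := hΨ.move
    refine ⟨a, ha, j, fun c hc => hj c ?_⟩
    rw [← hΨ' a, PowerSeries.coeff_map, hc]
    rfl

end PGL.H47
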