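import Mathlib
import Pool.Agent.Helper11_PGL.StmtB
import Pool.Agent.Helper1_PGH.FF

/-!
# TAYLOR: expansion at a place
-/

open PGH Polynomial
open scoped IntermediateField
open scoped IntermediateField.algebraAdjoinAdjoin

universe u

namespace PGL.H47

section

variable {k K : Type u} [Field k] [Field K] [Algebra k K]

/-- `n`-th truncation of the power series `w` at `π` -/
noncomputable def pT (π : K) (w : PowerSeries k) (n : ℕ) : K := aeval π (PowerSeries.trunc n w)

/-- `w` is the Taylor series of `x` -/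
def Appr (P : Place k K) (π : K) (x : K) (w : PowerSeries k) : Prop :=
  ∀ n : ℕ, P.Ge n (x - pT π w n)

variable {P : Place k K} {π : K}

theorem pT_eq (w : PowerSeries k) (n : ℕ) :
    pT π w n = ∑ j ∈ Finset.range n, algebraMap k K (PowerSeries.coeff j w) * π ^ j := by
  unfold pT
  have h : PowerSeries.trunc n w = ∑ j ∈ Finset.range n, monomial j (PowerSeries.coeff j w) := by
    ext i
    rw [PowerSeries.coeff_trunc, finsetSum_coeff]
    simp only [coeff_monomial, Finset.sum_ite_eq', Finset.mem_range]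
  rw [h, map_sum]
  refine Finset.sum_congr rfl fun j _ => ?_
  rw [← C_mul_X_pow_eq_monomial, map_mul, aeval_C, map_pow, aeval_X]

theorem pT_succ (w : PowerSeries k) (n : ℕ) :
    pT π w (n + 1) = pT π w n + algebraMap k K (PowerSeries.coeff n w) * π ^ n := by
  rw [pT_eq, pT_eq, Finset.sum_range_succ]

theorem Appr.zero_le {x : K} {w : PowerSeries k} (h : Appr P π x w) : P.Ge 0 x := by
  have := h 0
  simpa [pT_eq] using this

theorem ge_pow (hπ : P.Ge 1 π) (n : ℕ) : P.Ge n (π ^ n) := by
  have := hπ.pow n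
  simpa using this

theorem ge_pT (hπ : P.Ge 1 π) (w : PowerSeries k) (n : ℕ) : P.Ge 0 (pT π w n) := by
  rw [pT_eq]
  exact Place.Ge.sum fun j _ => (P.ge_const _).mul' (ge_pow hπ j) (by omega)

theorem ge_aeval (hπ : P.Ge 1 π) {q : k[X]} {n : ℕ} (h : (X : k[X]) ^ n ∣ q) :
    P.Ge n (aeval π q) := by
  obtain ⟨r, rfl⟩ := h
  rw [map_mul, map_pow, aeval_X]
  refine (ge_pow hπ n).mul' (n := 0) ?_ (by omega)
  rw [aeval_eq_sum_range]
  refine Place.Ge.sum fun j _ => ?_
  rw [Algebra.smul_def]
  exact (P.ge_const _).mul' (ge_pow hπ j) (by omega)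

theorem coeff_zero_of_ge (hπ : P.ord π = 1) (hπ0 : π ≠ 0) {w : PowerSeries k} {n : ℕ}
    (h : P.Ge n (pT π w n)) : ∀ j < n, PowerSeries.coeff j w = 0 := by
  intro j
  induction j using Nat.strong_induction_on with
  | _ j ih =>
    intro hj
    by_contra hne
    -- split the sum
    have h1 : P.Ge (j + 1) (pT π w n - algebraMap k K (PowerSeries.coeff j w) * π ^ j) := by
      rw [pT_eq, ← Finset.add_sum_erase _ _ (Finset.mem_range.2 hj), add_sub_cancel_left]
      refine Place.Ge.sum fun i hi => ?_
      rw [Finset.mem_erase, Finset.mem_range] at hi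
      rcases lt_or_gt_of_ne hi.1 with hlt | hgt
      · rw [ih i hlt hi.2]; simp
      · refine (P.ge_const _).mul' (ge_pow ((P.ge_iff hπ0).2 hπ.ge) i) ?_
        have : (j : ℤ) < i := by exact_mod_cast hgt
        omega
    have h2 : P.Ge (j + 1) (algebraMap k K (PowerSeries.coeff j w) * π ^ j) := by
      have h3 : P.Ge (j + 1) (pT π w n) := h.mono (by
        have : (j : ℤ) < n := by exact_mod_cast hj
        omega)
      have := h3.sub h1
      simpa using this
    have h4 : algebraMap k K (PowerSeries.coeff j w) ≠ 0 := by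
      rw [Ne, map_eq_zero]; exact hne
    rw [P.ge_iff (mul_ne_zero h4 (pow_ne_zero _ hπ0)), P.ord_mul h4 (pow_ne_zero _ hπ0),
      P.ord_const, P.ord_pow, hπ] at h2
    omega

theorem pT_sub (w w' : PowerSeries k) (n : ℕ) : pT π (w - w') n = pT π w n - pT π w' n := by
  rw [pT_eq, pT_eq, pT_eq, ← Finset.sum_sub_distrib]
  refine Finset.sum_congr rfl fun j _ => ?_
  rw [map_sub, map_sub, sub_mul]

theorem pT_add (w w' : PowerSeries k) (n : ℕ) : pT π (w + w') n = pT π w n + pT π w' n := by
  rw [pT_eq, pT_eq, pT_eq, ← Finset.sum_add_distrib]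
  refine Finset.sum_congr rfl fun j _ => ?_
  rw [map_add, map_add, add_mul]

theorem Appr.unique (hπ : P.ord π = 1) (hπ0 : π ≠ 0) {x : K} {w w' : PowerSeries k}
    (h : Appr P π x w) (h' : Appr P π x w') : w = w' := by
  rw [← sub_eq_zero]
  ext j
  rw [map_zero]
  refine coeff_zero_of_ge hπ hπ0 (n := j + 1) ?_ j (Nat.lt_succ_self j)
  rw [pT_sub]
  have := (h' (j + 1)).sub (h (j + 1))
  simpa using this

theorem Appr.add {x y : K} {w w' : PowerSeries k} (h : Appr P π x w) (h' : Appr P π y w') :
    Appr P π (x + y) (w + w') := by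
  intro n
  rw [pT_add]
  have := (h n).add (h' n)
  convert this using 1
  ring

theorem trunc_mul_dvd (w w' : PowerSeries k) (n : ℕ) :
    (X : k[X]) ^ n ∣ PowerSeries.trunc n w * PowerSeries.trunc n w' -
      PowerSeries.trunc n (w * w') := by
  rw [X_pow_dvd_iff]
  intro d hd
  rw [coeff_sub, PowerSeries.coeff_trunc, if_pos hd, sub_eq_zero, coeff_mul, PowerSeries.coeff_mul]
  refine Finset.sum_congr rfl fun ij hij => ?_
  rw [Finset.HasAntidiagonal.mem_antidiagonal] at hij
  rw [PowerSeries.coeff_trunc, PowerSeries.coeff_trunc, if_pos (by omega), if_pos (by omega)]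

theorem Appr.mul (hπ : P.Ge 1 π) {x y : K} {w w' : PowerSeries k} (h : Appr P π x w)
    (h' : Appr P π y w') : Appr P π (x * y) (w * w') := by
  intro n
  have h1 : P.Ge n (x * (y - pT π w' n)) := h.zero_le.mul' (h' n) (by omega)
  have h2 : P.Ge n ((x - pT π w n) * pT π w' n) := (h n).mul' (ge_pT hπ w' n) (by omega)
  have h3 := ge_aeval hπ (trunc_mul_dvd w w' n)
  rw [map_sub, map_mul] at h3
  have := (h1.add h2).add h3
  convert this using 1
  unfold pT
  ring

theorem Appr.const (c : k) : Appr P π (algebraMap k K c) (PowerSeries.C c) := by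
  intro n
  rcases n with _ | n
  · simp [pT_eq]; exact P.ge_const c
  · rw [pT_eq, Finset.sum_range_succ']
    simp [PowerSeries.coeff_C]

theorem Appr.unif (hπ : P.Ge 1 π) : Appr P π π (PowerSeries.X : PowerSeries k) := by
  intro n
  rcases n with _ | _ | n
  · simp [pT_eq]; exact hπ.mono (by omega)
  · simpa [pT_eq] using hπ
  · have h0 : ∀ i, (PowerSeries.coeff (i + 1 + 1)) (PowerSeries.X : PowerSeries k) = 0 := by
      intro i; rw [PowerSeries.coeff_X, if_neg (by omega)]
    rw [pT_eq, Finset.sum_range_succ', Finset.sum_range_succ']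
    simp [h0]

/-- remainders -/
noncomputable def rem (P : Place k K) (π : K) (x : K) : ℕ → K
  | 0 => x
  | n + 1 => (rem P π x n - algebraMap k K (P.res (rem P π x n))) * π⁻¹

/-- the Taylor series -/
noncomputable def tau (P : Place k K) (π : K) (x : K) : PowerSeries k :=
  PowerSeries.mk fun n => P.res (rem P π x n)

theorem rem_ge (hπ : P.ord π = 1) (hπ0 : π ≠ 0) {x : K} (hx : P.Ge 0 x) (n : ℕ) :
    P.Ge 0 (rem P π x n) := by
  induction n with
  | zero => exact hx
  | succ n ih =>
    refine (P.res_spec ih).mul' (n := -1) ?_ (by omega)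
    rw [P.ge_iff (inv_ne_zero hπ0), P.ord_inv, hπ]

theorem tau_appr (hπ : P.ord π = 1) (hπ0 : π ≠ 0) {x : K} (hx : P.Ge 0 x) :
    Appr P π x (tau P π x) := by
  have key : ∀ n, x - pT π (tau P π x) n = π ^ n * rem P π x n := by
    intro n
    induction n with
    | zero => simp [pT_eq, rem]
    | succ n ih =>
      rw [pT_succ, ← sub_sub, ih, rem, pow_succ]
      have : PowerSeries.coeff n (tau P π x) = P.res (rem P π x n) := by
        simp [tau]
      rw [this]
      field_simp
  intro n
  rw [key n]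
  exact (ge_pow ((P.ge_iff hπ0).2 hπ.ge) n).mul' (rem_ge hπ hπ0 hx n) (by omega)

variable [IsAlgClosed k]

/-- an algebraic relation over `k[π]` -/
theorem exists_rel [FF k K] (hπ : Transcendental k π) (x : K) :
    ∃ Q : k[X][X], Q ≠ 0 ∧ eval₂ (aeval π : k[X] →ₐ[k] K).toRingHom x Q = 0 := by
  have h1 : IsAlgebraic k⟮π⟯ x := (FF.isAlgebraic hπ).1 x
  have h2 : IsAlgebraic (Algebra.adjoin k {π}) x :=
    (IsFractionRing.isAlgebraic_iff (Algebra.adjoin k {π}) k⟮π⟯ K).2 h1
  obtain ⟨p, hp0, hp⟩ := h2
  have hs : ∀ a : Algebra.adjoin k {π}, ∃ q : k[X], aeval π q = (a : K) := by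
    intro a
    have : (a : K) ∈ (aeval π : k[X] →ₐ[k] K).range := by
      rw [← Algebra.adjoin_singleton_eq_range_aeval]; exact a.2
    exact this
  choose f hf using hs
  have hf0 : f 0 = 0 := by
    have := hf 0
    by_contra hne
    exact hπ ⟨f 0, hne, by rw [this]; rfl⟩
  refine ⟨∑ i ∈ Finset.range (p.natDegree + 1), monomial i (f (p.coeff i)), ?_, ?_⟩
  · intro h0
    apply hp0
    ext i
    have hi := congrArg (fun q => coeff q i) h0
    simp only [finsetSum_coeff, coeff_monomial, Finset.sum_ite_eq', coeff_zero] at hi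
    have hii : f (p.coeff i) = 0 := by
      by_cases hmem : i ∈ Finset.range (p.natDegree + 1)
      · rwa [if_pos hmem] at hi
      · rw [coeff_eq_zero_of_natDegree_lt (by
          rw [Finset.mem_range] at hmem; omega), hf0]
    have := hf (p.coeff i)
    rw [hii, map_zero] at this
    rw [coeff_zero]
    exact this.symm
  · rw [eval₂_finsetSum]
    rw [aeval_eq_sum_range] at hp
    rw [← hp]
    refine Finset.sum_congr rfl fun i _ => ?_
    rw [eval₂_monomial]
    simp only [AlgHom.toRingHom_eq_coe, RingHom.coe_coe, hf]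
    rw [Algebra.smul_def]
    rfl

end

open Classical in
theorem taylor : TaylorStmt.{u} := by
  intro k K _ _ _ _ _ _ P
  obtain ⟨π, hπ0, hπ⟩ := P.exists_unif
  have hπ1 : P.Ge 1 π := (P.ge_iff hπ0).2 hπ.ge
  have hadd : ∀ x y, P.Ge 0 x → P.Ge 0 y → tau P π (x + y) = tau P π x + tau P π y :=
    fun x y hx hy => (tau_appr hπ hπ0 (hx.add hy)).unique hπ hπ0
      ((tau_appr hπ hπ0 hx).add (tau_appr hπ hπ0 hy))
  have hmul : ∀ x y, P.Ge 0 x → P.Ge 0 y → tau P π (x * y) = tau P π x * tau P π y :=
    fun x y hx hy => (tau_appr hπ hπ0 (hx.mul' hy (by omega))).unique hπ hπ0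
      ((tau_appr hπ hπ0 hx).mul hπ1 (tau_appr hπ hπ0 hy))
  have hconst : ∀ c : k, tau P π (algebraMap k K c) = PowerSeries.C c :=
    fun c => (tau_appr hπ hπ0 (P.ge_const c)).unique hπ hπ0 (Appr.const c)
  refine ⟨tau P π, hconst, fun x y hx hy => ⟨hadd x y hx hy, hmul x y hx hy⟩, ?_, ?_⟩
  · intro x hx n
    have h := tau_appr hπ hπ0 hx
    rw [PowerSeries.X_pow_dvd_iff]
    constructor
    · intro hn
      refine coeff_zero_of_ge hπ hπ0 ?_
      have := hn.sub (h n)
      simpa using this
    · intro h0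
      have h1 : pT π (tau P π x) n = 0 := by
        rw [pT_eq]
        refine Finset.sum_eq_zero fun j hj => ?_
        rw [h0 j (Finset.mem_range.1 hj)]; simp
      have := h n
      rwa [h1, sub_zero] at this
  · intro x hx
    have htr : Transcendental k π := by
      rw [PGH.transcendental_iff]
      rintro c rfl
      rw [P.ord_const] at hπ
      omega
    obtain ⟨Q, hQ0, hQ⟩ := exists_rel htr x
    -- ring hom on the valuation ring
    let τ₀ : P.ring →+* PowerSeries k :=
      { toFun := fun z => tau P π z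
        map_one' := by
          have := hconst 1
          simpa using this
        map_mul' := fun a b => hmul a b (P.mem_ring.1 a.2) (P.mem_ring.1 b.2)
        map_zero' := by
          have := hconst 0
          simpa using this
        map_add' := fun a b => hadd a b (P.mem_ring.1 a.2) (P.mem_ring.1 b.2) }
    let γ : k →+* P.ring := (algebraMap k K).codRestrict P.ring.toSubring
      (fun c => P.mem_ring.2 (P.ge_const c))
    let π' : P.ring := ⟨π, P.mem_ring.2 (hπ1.mono (by omega))⟩
    let x' : P.ring := ⟨x, P.mem_ring.2 hx⟩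
    let g : k[X] →+* P.ring := eval₂RingHom γ π'
    have hg1 : (P.ring.subtype).comp g = (aeval π : k[X] →ₐ[k] K).toRingHom := by
      apply ringHom_ext
      · intro a
        simp [g, γ]
      · simp [g, π']
    have hg2 : τ₀.comp g = algebraMap k[X] (PowerSeries k) := by
      apply ringHom_ext
      · intro a
        have : τ₀ (γ a) = PowerSeries.C a := hconst a
        simp [g, this, PowerSeries.algebraMap_apply']
      · have : τ₀ π' = PowerSeries.X :=
          (tau_appr hπ hπ0 (hπ1.mono (by omega))).unique hπ hπ0 (Appr.unif hπ1)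
        simp [g, this, PowerSeries.algebraMap_apply']
    have h3 : eval₂ g x' Q = 0 := by
      apply Subtype.val_injective
      change P.ring.subtype (eval₂ g x' Q) = _
      rw [hom_eval₂, hg1]
      exact hQ
    refine ⟨Q, hQ0, ?_⟩
    have h4 := congrArg τ₀ h3
    rw [hom_eval₂, hg2, map_zero] at h4
    exact h4

end PGL.H47
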